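import Pool.Agent.Y675.LN.Stm

/-!
Project LN: Chinese remainder theorem and lower bound for the number of solutions.
-/

set_option autoImplicit false

namespace Pool.Agent.Y363.LN

open Pool.Agent.Y675.LN

/-- a ring isomorphism with a product and the polynomial expressions -/
theorem map_F {R R' : Type*} [CommRing R] [CommRing R'] (φ : R →+* R') (k : ℕ) (a b : R) :
    φ (F (k : R) a b) = F (k : R') (φ a) (φ b) := by
  have h3 : φ 3 = 3 := map_ofNat φ 3
  simp [F, h3]

theorem map_E {R R' : Type*} [CommRing R] [CommRing R'] (φ : R →+* R') (k : ℕ) (a b : R) :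
    φ (E (k : R) a b) = E (k : R') (φ a) (φ b) := by
  have h3 : φ 3 = 3 := map_ofNat φ 3
  have h27 : φ 27 = 27 := map_ofNat φ 27
  have h12 : φ 12 = 12 := map_ofNat φ 12
  have h9 : φ 9 = 9 := map_ofNat φ 9
  simp [E, h3, h27, h12, h9]

theorem tC : S_CRT := by
  intro k A m n hm hn hmn
  let φ : ZMod (m * n) ≃+* ZMod m × ZMod n := ZMod.chineseRemainder hmn
  let p1 : ZMod (m * n) →+* ZMod m := (RingHom.fst _ _).comp φ.toRingHom
  let p2 : ZMod (m * n) →+* ZMod n := (RingHom.snd _ _).comp φ.toRingHom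
  have hφ : ∀ x, φ x = (p1 x, p2 x) := fun _ => rfl
  have heq : ∀ x y, x = y ↔ p1 x = p1 y ∧ p2 x = p2 y := by
    intro x y
    rw [← φ.injective.eq_iff, hφ, hφ, Prod.mk.injEq]
  have hun : ∀ x, IsUnit x ↔ IsUnit (p1 x) ∧ IsUnit (p2 x) := by
    intro x
    have h1 : IsUnit x ↔ IsUnit (φ x) := (MulEquiv.isUnit_map φ).symm
    rw [h1, Prod.isUnit_iff]
    rfl
  let e : ZMod (m * n) × ZMod (m * n) ≃ (ZMod m × ZMod m) × (ZMod n × ZMod n) :=
    (φ.toEquiv.prodCongr φ.toEquiv).trans (Equiv.prodProdProdComm _ _ _ _)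
  have he : ∀ x, e x = ((p1 x.1, p1 x.2), (p2 x.1, p2 x.2)) := fun _ => rfl
  have himg : e '' (S k A (m * n)) = (S k A m) ×ˢ (S k A n) := by
    ext y
    obtain ⟨x, rfl⟩ := e.surjective y
    rw [e.injective.mem_set_image, he, Set.mem_prod]
    unfold S
    simp only [Set.mem_ofPred_eq]
    rw [heq, hun, map_F, map_F, map_E, map_E, map_natCast, map_natCast]
    tauto
  rw [← Set.ncard_image_of_injective _ e.injective, himg, Set.ncard_prod]

theorem om_mul {a b : ℕ} (h : Nat.Coprime a b) : om (a * b) = om a + om b := by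
  unfold om
  rw [h.primeFactors_mul, Finset.card_union_of_disjoint h.disjoint_primeFactors]

theorem tL (h1 : S_LOC) (h2 : S_HENSEL) : S_LOW := by
  intro k A M
  induction M using Nat.recOnPosPrimePosCoprime with
  | prime_pow p n hp hn =>
    intro _ hpr hco
    have hpd : p ∣ p ^ n := dvd_pow_self p hn.ne'
    have h3 := h1 k A p hp (hpr p hp hpd) (fun h => by
      have h4 := Nat.Coprime.coprime_dvd_right hpd hco
      exact hp.one_lt.ne' (Nat.Coprime.eq_one_of_dvd h4.symm h))
    have h4 := h2 k A p n hp hn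
    have h5 : om (p ^ n) = 1 := by
      unfold om
      rw [Nat.primeFactors_prime_pow hn.ne' hp, Finset.card_singleton]
    rw [h5, pow_one]
    calc p ^ n = p ^ (n - 1) * p := by
          rw [← pow_succ, Nat.sub_add_cancel hn]
      _ ≤ p ^ (n - 1) * (2 * (S k A p).ncard) := Nat.mul_le_mul_left _ h3
      _ = 2 * (p ^ (n - 1) * (S k A p).ncard) := by ring
      _ ≤ 2 * (S k A (p ^ n)).ncard := Nat.mul_le_mul_left _ h4
  | zero =>
    intro h
    exact absurd h (lt_irrefl 0)
  | one =>
    intro _ _ _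
    have h3 : om 1 = 0 := by simp [om]
    rw [h3, pow_zero, one_mul]
    have h4 : ((0, 0) : ZMod 1 × ZMod 1) ∈ S k A 1 :=
      ⟨Subsingleton.elim _ _, isUnit_of_subsingleton _⟩
    have h5 : (S k A 1).Finite := Set.toFinite _
    exact (Set.ncard_pos h5).2 ⟨_, h4⟩
  | coprime a b ha hb hab iha ihb =>
    intro _ hpr hco
    have h3 := iha (by omega) (fun p hp hd => hpr p hp (hd.mul_right b))
      (Nat.Coprime.coprime_mul_right_right hco)
    have h4 := ihb (by omega) (fun p hp hd => hpr p hp (hd.mul_left a))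
      (Nat.Coprime.coprime_mul_left_right hco)
    rw [om_mul hab, tC k A a b (by omega) (by omega) hab, pow_add]
    calc a * b ≤ (2 ^ om a * (S k A a).ncard) * (2 ^ om b * (S k A b).ncard) :=
          Nat.mul_le_mul h3 h4
      _ = _ := by ring

end Pool.Agent.Y363.LN
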